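import Pool.Agent.BEB.Stmts

/-! BEB, row DEN: density of the odd polynomials. -/

namespace Pool.Agent.BEB.H98

open Set Filter Topology MeasureTheory
open scoped InnerProductSpace ENNReal
open Pool.Agent.BE01 Pool.Agent.BEB

noncomputable section

theorem odd_add {P Q : Pl} (hP : OddP P) (hQ : OddP Q) : OddP (P + Q) := by
  classical
  intro m hm
  rcases Finset.mem_union.1 (MvPolynomial.support_add hm) with h | h
  · exact hP m h
  · exact hQ m h

theorem odd_mul_X {P : Pl} (hP : OddP P) {i : Fin 3} (hi : i ≠ 2) :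
    OddP (P * MvPolynomial.X i) := by
  intro m hm
  rw [MvPolynomial.support_mul_X, Finset.mem_map] at hm
  obtain ⟨m', hm', rfl⟩ := hm
  have h1 : (addRightEmbedding (Finsupp.single i 1) m') 2 = m' 2 + (Finsupp.single i 1) 2 := rfl
  rw [h1, Finsupp.single_eq_of_ne hi.symm, add_zero]
  exact hP m' hm'

theorem odd_mul_X2 {P : Pl} (hP : OddP P) :
    OddP (P * MvPolynomial.X 2 * MvPolynomial.X 2) := by
  intro m hm
  rw [MvPolynomial.support_mul_X, Finset.mem_map] at hm
  obtain ⟨m', hm', rfl⟩ := hm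
  rw [MvPolynomial.support_mul_X, Finset.mem_map] at hm'
  obtain ⟨m'', hm'', rfl⟩ := hm'
  have h1 : (addRightEmbedding (Finsupp.single (2 : Fin 3) 1)
    (addRightEmbedding (Finsupp.single (2 : Fin 3) 1) m'')) 2 =
    m'' 2 + (Finsupp.single (2 : Fin 3) 1) 2 + (Finsupp.single (2 : Fin 3) 1) 2 := rfl
  rw [h1, Finsupp.single_eq_same, add_assoc]
  exact (hP m'' hm'').add_even ⟨1, rfl⟩

theorem odd_C (c : ℝ) : OddP (MvPolynomial.X 2 * MvPolynomial.C c) := by
  intro m hm
  rw [mul_comm] at hm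
  rw [MvPolynomial.support_mul_X, Finset.mem_map] at hm
  obtain ⟨m', hm', rfl⟩ := hm
  have h0 : m' = 0 := by
    have h2 := MvPolynomial.support_monomial_subset (s := (0 : Fin 3 →₀ ℕ)) (a := c) hm'
    exact Finset.mem_singleton.1 h2
  subst h0
  have h1 : (addRightEmbedding (Finsupp.single (2 : Fin 3) 1) (0 : Fin 3 →₀ ℕ)) 2 =
    0 + (Finsupp.single (2 : Fin 3) 1) 2 := rfl
  rw [h1, Finsupp.single_eq_same, zero_add]
  exact odd_one

/-- the closed half ball -/
def KB (R : ℝ) : Set (En 3) := Metric.closedBall (0 : En 3) R ∩ {x | 0 ≤ x 2}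

theorem cont_coord (i : Fin 3) : Continuous fun x : En 3 => x i := by
  fun_prop

theorem KB_compact (R : ℝ) : IsCompact (KB R) :=
  (isCompact_closedBall _ _).inter_right (isClosed_le continuous_const (cont_coord 2))

/-- the generators of the algebra -/
def gen (R : ℝ) (i : Fin 3) : C(KB R, ℝ) :=
  if i = 2 then ⟨fun x => (x : En 3) 2 * (x : En 3) 2,
    ((cont_coord 2).comp continuous_subtype_val).mul ((cont_coord 2).comp continuous_subtype_val)⟩
  else ⟨fun x => (x : En 3) i, (cont_coord i).comp continuous_subtype_val⟩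

theorem gen_two {R : ℝ} (x : KB R) : gen R 2 x = (x : En 3) 2 * (x : En 3) 2 := by
  unfold gen
  rw [if_pos rfl]
  rfl

theorem gen_ne {R : ℝ} {i : Fin 3} (hi : i ≠ 2) (x : KB R) : gen R i x = (x : En 3) i := by
  unfold gen
  rw [if_neg hi]
  rfl

theorem exists_ev {R : ℝ} (P : Pl) : ∃ Q : Pl, OddP (MvPolynomial.X 2 * Q) ∧
    ∀ x : KB R, (MvPolynomial.aeval (gen R) P : C(KB R, ℝ)) x = ev Q (x : En 3) := by
  induction P using MvPolynomial.induction_on with
  | C c =>
    refine ⟨MvPolynomial.C c, odd_C c, fun x => ?_⟩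
    rw [MvPolynomial.aeval_C]
    unfold ev
    rw [MvPolynomial.eval_C]
    exact (algebraMap_apply c x).trans (by rw [smul_eq_mul, mul_one])
  | add P1 P2 h1 h2 =>
    obtain ⟨Q1, hQ1, e1⟩ := h1
    obtain ⟨Q2, hQ2, e2⟩ := h2
    refine ⟨Q1 + Q2, ?_, fun x => ?_⟩
    · rw [mul_add]
      exact odd_add hQ1 hQ2
    · rw [map_add, ContinuousMap.add_apply, e1, e2]
      unfold ev
      rw [map_add]
  | mul_X P i h =>
    obtain ⟨Q, hQ, e⟩ := h
    by_cases hi : i = 2
    · subst hi
      refine ⟨Q * MvPolynomial.X 2 * MvPolynomial.X 2, ?_, fun x => ?_⟩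
      · rw [← mul_assoc, ← mul_assoc]
        exact odd_mul_X2 hQ
      · rw [map_mul, ContinuousMap.mul_apply, e, MvPolynomial.aeval_X, gen_two]
        unfold ev
        rw [map_mul, map_mul, MvPolynomial.eval_X, mul_assoc]
    · refine ⟨Q * MvPolynomial.X i, ?_, fun x => ?_⟩
      · rw [← mul_assoc]
        exact odd_mul_X hQ hi
      · rw [map_mul, ContinuousMap.mul_apply, e, MvPolynomial.aeval_X, gen_ne hi]
        unfold ev
        rw [map_mul, MvPolynomial.eval_X]

theorem sep (R : ℝ) : (MvPolynomial.aeval (gen R) : Pl →ₐ[ℝ] C(KB R, ℝ)).range.SeparatesPoints := by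
  intro x y hxy
  have hmem : ∀ i, gen R i ∈ (MvPolynomial.aeval (gen R) : Pl →ₐ[ℝ] C(KB R, ℝ)).range := fun i =>
    ⟨MvPolynomial.X i, MvPolynomial.aeval_X _ _⟩
  have h : ∃ i, (x : En 3) i ≠ (y : En 3) i := by
    by_contra h
    push Not at h
    exact hxy (Subtype.ext (by ext i; exact h i))
  obtain ⟨i, hi⟩ := h
  refine ⟨gen R i, ⟨gen R i, hmem i, rfl⟩, ?_⟩
  by_cases h2 : i = 2
  · subst h2
    rw [gen_two, gen_two]
    intro h
    exact hi ((mul_self_inj x.2.2 y.2.2).1 h)
  · rw [gen_ne h2, gen_ne h2]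
    exact hi

theorem approx {R : ℝ} (g : En 3 → ℝ) (hg : Continuous g) (ε : ℝ) (hε : 0 < ε) :
    ∃ Q : Pl, OddP (MvPolynomial.X 2 * Q) ∧ ∀ x ∈ KB R, |ev Q x - g x| < ε := by
  have : CompactSpace (KB R) := isCompact_iff_compactSpace.1 (KB_compact R)
  obtain ⟨⟨f, P, hP⟩, hf⟩ :=
    ContinuousMap.exists_mem_subalgebra_near_continuous_of_separatesPoints _ (sep R)
      (fun x : KB R => g x) (hg.comp continuous_subtype_val) ε hε
  obtain ⟨Q, hQ, e⟩ := exists_ev (R := R) P
  refine ⟨Q, hQ, fun x hx => ?_⟩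
  have h1 := hf ⟨x, hx⟩
  have h2 := e ⟨x, hx⟩
  rw [Real.norm_eq_abs] at h1
  have h3 : f ⟨x, hx⟩ = ev Q x := by
    rw [← h2]
    exact congrArg (fun F : C(KB R, ℝ) => F ⟨x, hx⟩) hP.symm
  rw [← h3]
  exact h1

theorem HB_meas (R : ℝ) : MeasurableSet (HB R) := by
  have h : IsOpen (HB R) := by
    have : HB R = {x | ‖x‖ < R} ∩ {x | 0 < x 2} := rfl
    rw [this]
    exact (isOpen_lt continuous_norm continuous_const).inter
      (isOpen_lt continuous_const (cont_coord 2))
  exact h.measurableSet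

theorem HB_sub (R : ℝ) : HB R ⊆ KB R := by
  intro x hx
  refine ⟨?_, hx.2.le⟩
  rw [mem_closedBall_zero_iff]
  exact hx.1.le

theorem mu_fin (R : ℝ) : IsFiniteMeasure (mu (HB R)) := by
  refine ⟨?_⟩
  rw [mu, Measure.restrict_apply_univ]
  exact lt_of_le_of_lt (measure_mono (HB_sub R)) (KB_compact R).measure_lt_top

theorem ev_mul (P Q : Pl) (x : En 3) : ev (P * Q) x = ev P x * ev Q x := by
  unfold ev
  rw [map_mul]

theorem ev_X (i : Fin 3) (x : En 3) : ev (MvPolynomial.X i) x = x i := by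
  unfold ev
  rw [MvPolynomial.eval_X]

theorem ev_cont (P : Pl) : Continuous (ev P) := by
  unfold ev
  exact (MvPolynomial.continuous_eval P).comp (by fun_prop)

theorem den : DenStmt := by
  intro R u hR hu
  have := mu_fin R
  have hmem : ∀ᵐ x ∂(mu (HB R)), x ∈ HB R := by
    rw [mu]
    exact ae_restrict_mem (HB_meas R)
  have hui : Integrable (fun x => u x) (mu (HB R)) := (Lp.memLp u).integrable one_le_two
  have hvi : Integrable (fun x => u x * x 2) (mu (HB R)) := by
    refine Integrable.mono (hui.const_mul R) (hui.aestronglyMeasurable.mul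
      (cont_coord 2).aestronglyMeasurable) ?_
    filter_upwards [hmem] with x hx
    rw [norm_mul, norm_mul, mul_comm]
    refine mul_le_mul_of_nonneg_right ?_ (norm_nonneg _)
    rw [Real.norm_eq_abs, Real.norm_eq_abs, abs_of_pos hx.2, abs_of_pos hR]
    have h1 : ‖x 2‖ ≤ ‖x‖ := PiLp.norm_apply_le x 2
    rw [Real.norm_eq_abs, abs_of_pos hx.2] at h1
    exact h1.trans hx.1.le
  have key : ∀ g : En 3 → ℝ, Continuous g → HasCompactSupport g →
      ∫ x, g x * (u x * x 2) ∂(mu (HB R)) = 0 := by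
    intro g hg hgc
    obtain ⟨M, hM⟩ := hg.bounded_above_of_compact_support hgc
    have hgi : Integrable (fun x => g x * (u x * x 2)) (mu (HB R)) :=
      hvi.bdd_mul hg.aestronglyMeasurable (Eventually.of_forall hM)
    by_contra hne
    set I := ∫ x, ‖u x * x 2‖ ∂(mu (HB R)) with hI
    have hI0 : 0 ≤ I := integral_nonneg fun x => norm_nonneg _
    set J := ∫ x, g x * (u x * x 2) ∂(mu (HB R)) with hJ
    have hJ0 : 0 < |J| := abs_pos.2 hne
    obtain ⟨δ, hδ⟩ : ∃ δ, δ = |J| / (2 * (I + 1)) := ⟨_, rfl⟩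
    have hδ0 : 0 < δ := by
      rw [hδ]
      positivity
    obtain ⟨Q, hQ, hQg⟩ := approx (R := R) g hg δ hδ0
    have h0 : ∫ x, ev Q x * (u x * x 2) ∂(mu (HB R)) = 0 := by
      rw [← hu _ hQ]
      refine integral_congr_ae (Eventually.of_forall fun x => ?_)
      change ev Q x * (u x * x 2) = u x * ev (MvPolynomial.X 2 * Q) x
      rw [ev_mul, ev_X]
      ring
    have hQi : Integrable (fun x => ev Q x * (u x * x 2)) (mu (HB R)) := by
      obtain ⟨B, hB⟩ := (KB_compact R).exists_bound_of_continuousOn (ev_cont Q).continuousOn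
      refine hvi.bdd_mul (c := B) (ev_cont Q).aestronglyMeasurable ?_
      filter_upwards [hmem] with x hx
      exact hB x (HB_sub R hx)
    have h1 : -J = ∫ x, (ev Q x - g x) * (u x * x 2) ∂(mu (HB R)) := by
      have h2 : (fun x => (ev Q x - g x) * (u x * x 2)) =
          fun x => ev Q x * (u x * x 2) - g x * (u x * x 2) := by
        funext x
        ring
      rw [h2, integral_sub hQi hgi, h0, zero_sub]
    have h3 : |J| ≤ δ * I := by
      rw [← abs_neg J, h1, hI, ← integral_const_mul]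
      refine (norm_integral_le_integral_norm
        (fun x => (ev Q x - g x) * (u x * x 2))).trans ?_
      refine integral_mono_ae ?_ (hvi.norm.const_mul _) ?_
      · have := (hQi.sub hgi).norm
        refine this.congr (Eventually.of_forall fun x => ?_)
        change ‖ev Q x * (u x * x 2) - g x * (u x * x 2)‖ = ‖(ev Q x - g x) * (u x * x 2)‖
        rw [sub_mul]
      · filter_upwards [hmem] with x hx
        rw [norm_mul]
        refine mul_le_mul_of_nonneg_right ?_ (norm_nonneg _)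
        exact (hQg x (HB_sub R hx)).le
    have h4 : δ * I ≤ |J| / 2 := by
      rw [hδ, div_mul_eq_mul_div, div_le_div_iff₀ (by positivity) (by norm_num)]
      nlinarith
    linarith
  have hae : ∀ᵐ x ∂(mu (HB R)), u x * x 2 = 0 :=
    ae_eq_zero_of_integral_contDiff_smul_eq_zero hvi.locallyIntegrable
      fun g hg hgc => key g hg.continuous hgc
  refine (Lp.eq_zero_iff_ae_eq_zero).2 ?_
  filter_upwards [hae, hmem] with x h1 h2
  rcases mul_eq_zero.1 h1 with h | h
  · exact h
  · exact absurd h h2.2.ne'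

end

end Pool.Agent.BEB.H98
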